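import Pool.Agent.Y271.RO.Stm

/-!
# RO-FAR (helper908)
-/

set_option autoImplicit false

namespace Pool.Agent.Y908.RO.FAR

open MeasureTheory Set Metric Filter Topology
open scoped InnerProductSpace ENNReal NNReal ComplexConjugate ContDiff
open Pool.Agent.Y271.RO
open Pool.Agent.Y283.NK (ct IsMul HasHyp)

theorem main (hMV : S_MV) : S_FAR := by
  classical
  intro S _ μ _ φ N hN u v a τ hτ x
  let k1 : ℂ → ℂ := fun z => if z ∈ ball a τ then 1 else 0
  let k2 : ℂ → ℂ := fun z => if z ∈ ball a τ then 0 else 1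
  let h : ℂ → ℂ := fun z => if z ∈ ball a τ then 0 else (z - a)⁻¹
  have m1 : Measurable k1 := Measurable.ite measurableSet_ball measurable_const measurable_const
  have m2 : Measurable k2 := Measurable.ite measurableSet_ball measurable_const measurable_const
  have m3 : Measurable h := Measurable.ite measurableSet_ball measurable_const
    ((measurable_id.sub_const a).inv)
  have b1 : ∀ s, ‖k1 (φ s)‖ ≤ 1 := by
    intro s
    simp only [k1]
    split_ifs <;> simp
  have b2 : ∀ s, ‖k2 (φ s)‖ ≤ 1 := by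
    intro s
    simp only [k2]
    split_ifs <;> simp
  have b3 : ∀ s, ‖h (φ s)‖ ≤ τ⁻¹ := by
    intro s
    simp only [h]
    split_ifs with hs
    · rw [norm_zero]; positivity
    · rw [norm_inv]
      apply inv_anti₀ hτ
      rw [mem_ball, dist_eq_norm, not_lt] at hs
      exact hs
  obtain ⟨e1, -, -, -⟩ := hMV S μ φ N hN x k1 1 m1 zero_le_one b1
  obtain ⟨e2, -, -, -⟩ := hMV S μ φ N hN x k2 1 m2 zero_le_one b2
  obtain ⟨e3, -, -, -⟩ := hMV S μ φ N hN x h τ⁻¹ m3 (by positivity) b3
  refine ⟨mv φ x k1, mv φ x k2, mv φ x h, -⟪v, mv φ x h⟫_ℂ, ?_, ?_, ?_⟩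
  · apply Lp.ext
    filter_upwards [e1, e2, Lp.coeFn_add (mv φ x k1) (mv φ x k2)] with s h1 h2 h3
    rw [h3, Pi.add_apply, h1, h2]
    simp only [k1, k2]
    split_ifs <;> simp
  · filter_upwards [e1] with s h1 hs
    rw [h1]
    simp only [k1]
    rw [if_neg hs, zero_mul]
  · have h3 : T1 N u v (mv φ x h) = N (mv φ x h) + ⟪v, mv φ x h⟫_ℂ • u := by
      simp [T1]
    have h4 : mv φ x k2 = N (mv φ x h) - a • mv φ x h := by
      apply Lp.ext
      filter_upwards [e2, e3, hN.eq (mv φ x h), Lp.coeFn_sub (N (mv φ x h)) (a • mv φ x h),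
        Lp.coeFn_smul a (mv φ x h)] with s h1 h2 h5 h6 h7
      rw [h6, Pi.sub_apply, h7, Pi.smul_apply, h5, h1, h2, smul_eq_mul]
      simp only [k2, h]
      split_ifs with hs
      · simp
      · have hne : φ s - a ≠ 0 := by
          intro h0
          apply hs
          rw [mem_ball, dist_eq_norm, h0, norm_zero]
          exact hτ
        field_simp
    rw [h3, h4]
    module

end Pool.Agent.Y908.RO.FAR
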