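import Pool.Agent.Y271.RO.Stm

/-!
# RO-SUR (helper908)
-/

set_option autoImplicit false

namespace Pool.Agent.Y908.RO.SUR

open MeasureTheory Set Metric Filter Topology
open scoped InnerProductSpace ENNReal NNReal ComplexConjugate ContDiff
open Pool.Agent.Y271.RO

theorem main : S_SUR := by
  intro H _ _ _ N u v a hEss hsurj
  obtain ⟨e, he1, hew, -, hea⟩ := hEss
  let L : (H × ℂ) →L[ℂ] H :=
    (T1 N u v - a • ContinuousLinearMap.id ℂ H).comp (ContinuousLinearMap.fst ℂ H ℂ) +
      (ContinuousLinearMap.snd ℂ H ℂ).smulRight u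
  have hL : ∀ (W : H) (c : ℂ), L (W, c) = T1 N u v W - a • W + c • u := by
    intro W c
    simp [L]
  have hs : Function.Surjective L := by
    intro x
    obtain ⟨W, c, h⟩ := hsurj x
    exact ⟨(W, c), by rw [hL, ← h]⟩
  obtain ⟨C, hC0, hC⟩ := L.exists_preimage_norm_le hs
  choose p hp hpn using fun n => hC (e n)
  have hb : ∀ n, ‖p n‖ ≤ C := by
    intro n
    have := hpn n
    rwa [he1, mul_one] at this
  have hW : ∀ n, ‖(p n).1‖ ≤ C := fun n => (norm_fst_le _).trans (hb n)
  have hc : ∀ n, ‖(p n).2‖ ≤ C := fun n => (norm_snd_le _).trans (hb n)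
  have key : ∀ n, (1 : ℝ) ≤ ‖ContinuousLinearMap.adjoint N (e n) - (conj a) • e n‖ * C +
      (‖v‖ * C + C) * ‖⟪u, e n⟫_ℂ‖ := by
    intro n
    have h1 : ⟪e n, e n⟫_ℂ = ⟪ContinuousLinearMap.adjoint N (e n) - (conj a) • e n, (p n).1⟫_ℂ +
        (⟪v, (p n).1⟫_ℂ + (p n).2) * ⟪e n, u⟫_ℂ := by
      have h2 : e n = T1 N u v (p n).1 - a • (p n).1 + (p n).2 • u := by
        rw [← hL, Prod.mk.eta, hp]
      have h3 : T1 N u v (p n).1 = N (p n).1 + ⟪v, (p n).1⟫_ℂ • u := by
        simp [T1]
      calc ⟪e n, e n⟫_ℂ = ⟪e n, T1 N u v (p n).1 - a • (p n).1 + (p n).2 • u⟫_ℂ := by rw [← h2]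
        _ = _ := by
          rw [h3, inner_sub_left, ContinuousLinearMap.adjoint_inner_left, inner_smul_left,
            inner_add_right, inner_sub_right, inner_add_right, inner_smul_right, inner_smul_right,
            inner_smul_right]
          simp only [RingHomCompTriple.comp_apply, RingHom.id_apply]
          ring
    have h4 : (1 : ℝ) = ‖⟪e n, e n⟫_ℂ‖ := by
      rw [inner_self_eq_norm_sq_to_K, he1]
      simp
    rw [h4, h1]
    refine (norm_add_le _ _).trans (add_le_add ?_ ?_)
    · exact (norm_inner_le_norm _ _).trans (mul_le_mul_of_nonneg_left (hW n) (norm_nonneg _))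
    · rw [norm_mul, norm_inner_symm (e n) u]
      apply mul_le_mul_of_nonneg_right _ (norm_nonneg _)
      refine (norm_add_le _ _).trans (add_le_add ?_ (hc n))
      exact (norm_inner_le_norm _ _).trans (mul_le_mul_of_nonneg_left (hW n) (norm_nonneg _))
  have hlim : Tendsto (fun n => ‖ContinuousLinearMap.adjoint N (e n) - (conj a) • e n‖ * C +
      (‖v‖ * C + C) * ‖⟪u, e n⟫_ℂ‖) atTop (𝓝 (0 * C + (‖v‖ * C + C) * 0)) := by
    apply Tendsto.add
    · apply Tendsto.mul_const
      have := hea.norm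
      rwa [norm_zero] at this
    · apply Tendsto.const_mul
      have := (hew u).norm
      rwa [norm_zero] at this
  rw [zero_mul, mul_zero, add_zero] at hlim
  have := ge_of_tendsto hlim (Eventually.of_forall key)
  linarith

end Pool.Agent.Y908.RO.SUR
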